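import Pool.Agent.L7h32.AA.Stm

set_option autoImplicit false

/-!
# Project AA: translations followed by the retraction are almost isometric (`S_PI`)
-/

open Set Filter Topology Metric MeasureTheory
open scoped ContDiff

namespace Pool.Agent.L7h73.AA

open Pool.Agent.L7h32.AA

/-- smooth families are continuous in the Lipschitz norm, the parameters are in a normed space -/
theorem cts_gen {W E F : Type} [NormedAddCommGroup W] [NormedSpace ℝ W]
    [NormedAddCommGroup E] [NormedSpace ℝ E]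
    [NormedAddCommGroup F] [NormedSpace ℝ F]
    (K V : Set E) (J : Set W) (M : W × E → F) (hK : IsCompact K) (hV : IsOpen V) (hKV : K ⊆ V)
    (hJ : IsOpen J) (hM : ContDiffOn ℝ ∞ M (J ×ˢ V)) (s : W) (hs : s ∈ J) (δ : ℝ) (hδ : 0 < δ) :
    ∃ τ : ℝ, 0 < τ ∧ ∀ s', ‖s' - s‖ < τ → LipSm K δ (fun x => M (s', x) - M (s, x)) := by
  have hat : ∀ x ∈ K, ContDiffAt ℝ ∞ M (s, x) := fun x hx =>
    hM.contDiffAt ((hJ.prod hV).mem_nhds ⟨hs, hKV hx⟩)
  have hcont : ∀ x ∈ K, ContinuousAt M (s, x) := fun x hx => (hat x hx).continuousAt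
  have h1 : ∀ᶠ s' in 𝓝 s, ∀ x ∈ K, ‖M (s', x) - M (s, x)‖ ≤ δ := by
    refine hK.eventually_forall_of_forall_eventually (P := fun s' x => ‖M (s', x) - M (s, x)‖ ≤ δ)
      fun x hx => ?_
    have c1 : ContinuousAt (fun z : W × E => ‖M (z.1, z.2) - M (s, z.2)‖) (s, x) := by
      have a1 : ContinuousAt (fun z : W × E => M (z.1, z.2)) (s, x) := hcont x hx
      have a2 : ContinuousAt (fun z : W × E => M (s, z.2)) (s, x) := by
        refine ContinuousAt.comp (g := M) (f := fun z : W × E => (s, z.2)) (hcont x hx) ?_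
        exact (by fun_prop)
      exact (a1.sub a2).norm
    have c2 : (fun z : W × E => ‖M (z.1, z.2) - M (s, z.2)‖) (s, x) < δ := by
      simpa using hδ
    exact (c1.eventually_lt continuousAt_const c2).mono fun z hz => hz.le
  have h2 : ∀ᶠ s' in 𝓝 s, ∀ q ∈ K ×ˢ K,
      ‖(M (s', q.1) - M (s, q.1)) - (M (s', q.2) - M (s, q.2))‖ ≤ δ * ‖q.1 - q.2‖ := by
    refine (hK.prod hK).eventually_forall_of_forall_eventually
      (P := fun s' q => ‖(M (s', q.1) - M (s, q.1)) - (M (s', q.2) - M (s, q.2))‖ ≤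
        δ * ‖q.1 - q.2‖) ?_
    rintro ⟨x, y⟩ ⟨hx, hy⟩
    by_cases hxy : x = y
    · subst hxy
      have hd := ((hat x hx).hasStrictFDerivAt (by simp)).isLittleO.def (half_pos hδ)
      set D := fderiv ℝ M (s, x)
      have t1 : Tendsto (fun z : W × (E × E) => (((z.1, z.2.1), (z.1, z.2.2)) :
          (W × E) × (W × E))) (𝓝 (s, (x, x))) (𝓝 ((s, x), (s, x))) := by
        have : Continuous (fun z : W × (E × E) => (((z.1, z.2.1), (z.1, z.2.2)) :
          (W × E) × (W × E))) := by fun_prop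
        exact this.tendsto' _ _ rfl
      have t2 : Tendsto (fun z : W × (E × E) => (((s, z.2.1), (s, z.2.2)) :
          (W × E) × (W × E))) (𝓝 (s, (x, x))) (𝓝 ((s, x), (s, x))) := by
        have : Continuous (fun z : W × (E × E) => (((s, z.2.1), (s, z.2.2)) :
          (W × E) × (W × E))) := by fun_prop
        exact this.tendsto' _ _ rfl
      filter_upwards [t1.eventually hd, t2.eventually hd] with z hz1 hz2
      have e1 : ((z.1, z.2.1) - (z.1, z.2.2) : W × E) = (0, z.2.1 - z.2.2) := by simp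
      have e2 : ((s, z.2.1) - (s, z.2.2) : W × E) = (0, z.2.1 - z.2.2) := by simp
      have e3 : ‖((0, z.2.1 - z.2.2) : W × E)‖ = ‖z.2.1 - z.2.2‖ := by
        simp [Prod.norm_def]
      simp only [e1, e3] at hz1
      simp only [e2, e3] at hz2
      have e4 : (M (z.1, z.2.1) - M (s, z.2.1)) - (M (z.1, z.2.2) - M (s, z.2.2)) =
          (M (z.1, z.2.1) - M (z.1, z.2.2) - D (0, z.2.1 - z.2.2)) -
          (M (s, z.2.1) - M (s, z.2.2) - D (0, z.2.1 - z.2.2)) := by abel
      rw [e4]
      refine (norm_sub_le _ _).trans ?_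
      linarith
    · have hpos : 0 < ‖x - y‖ := norm_pos_iff.2 (sub_ne_zero.2 hxy)
      have a1 : ContinuousAt (fun z : W × (E × E) => M (z.1, z.2.1)) (s, (x, y)) :=
        ContinuousAt.comp (g := M) (f := fun z : W × (E × E) => (z.1, z.2.1)) (hcont x hx)
          (by fun_prop)
      have a2 : ContinuousAt (fun z : W × (E × E) => M (s, z.2.1)) (s, (x, y)) :=
        ContinuousAt.comp (g := M) (f := fun z : W × (E × E) => (s, z.2.1)) (hcont x hx)
          (by fun_prop)
      have a3 : ContinuousAt (fun z : W × (E × E) => M (z.1, z.2.2)) (s, (x, y)) :=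
        ContinuousAt.comp (g := M) (f := fun z : W × (E × E) => (z.1, z.2.2)) (hcont y hy)
          (by fun_prop)
      have a4 : ContinuousAt (fun z : W × (E × E) => M (s, z.2.2)) (s, (x, y)) :=
        ContinuousAt.comp (g := M) (f := fun z : W × (E × E) => (s, z.2.2)) (hcont y hy)
          (by fun_prop)
      have a5 : ContinuousAt (fun z : W × (E × E) => δ * ‖z.2.1 - z.2.2‖) (s, (x, y)) := by
        fun_prop
      have c2 : (fun z : W × (E × E) =>
          ‖(M (z.1, z.2.1) - M (s, z.2.1)) - (M (z.1, z.2.2) - M (s, z.2.2))‖) (s, (x, y)) <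
          (fun z : W × (E × E) => δ * ‖z.2.1 - z.2.2‖) (s, (x, y)) := by
        simpa using mul_pos hδ hpos
      exact (((a1.sub a2).sub (a3.sub a4)).norm.eventually_lt a5 c2).mono fun z hz => hz.le
  obtain ⟨τ, hτ, h⟩ := Metric.eventually_nhds_iff.1 (h1.and h2)
  refine ⟨τ, hτ, fun s' hs' => ?_⟩
  obtain ⟨b1, b2⟩ := h (y := s') (by rwa [dist_eq_norm])
  exact ⟨b1, fun x hx y hy => b2 (x, y) ⟨hx, hy⟩⟩

theorem s_PI : S_PI := by
  intro E _ _ _ K U N hR
  obtain ⟨δ, hδ, hδU⟩ := hR.cpt.exists_thickening_subset_open hR.opn hR.sub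
  have hδ2 : 0 < δ / 2 := half_pos hδ
  have hV : IsOpen (thickening (δ / 2) K) := isOpen_thickening
  have hKV : K ⊆ thickening (δ / 2) K := self_subset_thickening hδ2 K
  have hVU : ∀ x ∈ thickening (δ / 2) K, ∀ z : E, ‖z‖ < δ / 2 → x + z ∈ U := by
    intro x hx z hz
    apply hδU
    rw [mem_thickening_iff] at hx ⊢
    obtain ⟨y, hy, hxy⟩ := hx
    refine ⟨y, hy, ?_⟩
    calc dist (x + z) y ≤ dist (x + z) x + dist x y := dist_triangle _ _ _
      _ = ‖z‖ + dist x y := by rw [dist_eq_norm, add_sub_cancel_left]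
      _ < δ := by linarith
  have hM : ContDiffOn ℝ ∞ (fun p : E × E => N (p.2 + p.1))
      (ball (0 : E) (δ / 2) ×ˢ thickening (δ / 2) K) := by
    refine ContDiffOn.comp (g := N) (t := U) hR.smooth (f := fun p : E × E => p.2 + p.1) ?_ ?_
    · exact (contDiff_snd.add contDiff_fst).contDiffOn
    · rintro ⟨z, x⟩ ⟨hz, hx⟩
      exact hVU x hx z (by simpa using hz)
  obtain ⟨τ, hτ, hL⟩ := cts_gen K (thickening (δ / 2) K) (ball (0 : E) (δ / 2))
    (fun p : E × E => N (p.2 + p.1)) hR.cpt hV hKV isOpen_ball hM 0 (mem_ball_self hδ2) (1 / 2)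
    (by norm_num)
  -- the Lipschitz bound
  have hcd : ContinuousOn (fderiv ℝ N) U := hR.smooth.continuousOn_fderiv_of_isOpen hR.opn (by simp)
  obtain ⟨B, hB⟩ := hR.cpt.exists_bound_of_continuousOn (hcd.mono hR.sub)
  have h1 : ∀ᶠ z in 𝓝 (0 : E), ∀ x ∈ K, ‖N (x + z) - N x‖ ≤ (max B 0 + 1) * ‖z‖ := by
    refine hR.cpt.eventually_forall_of_forall_eventually
      (P := fun z x => ‖N (x + z) - N x‖ ≤ (max B 0 + 1) * ‖z‖) fun x hx => ?_
    have hat : ContDiffAt ℝ ∞ N x := hR.smooth.contDiffAt (hR.opn.mem_nhds (hR.sub hx))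
    have hd := (hat.hasStrictFDerivAt (by simp)).isLittleO.def (zero_lt_one)
    have t1 : Tendsto (fun z : E × E => ((z.2 + z.1, z.2) : E × E)) (𝓝 (0, x)) (𝓝 (x, x)) := by
      have : Continuous (fun z : E × E => ((z.2 + z.1, z.2) : E × E)) := by fun_prop
      exact this.tendsto' _ _ (by simp)
    filter_upwards [t1.eventually hd] with z hz
    simp only [add_sub_cancel_left, one_mul] at hz
    have e : N (z.2 + z.1) - N z.2 = (N (z.2 + z.1) - N z.2 - fderiv ℝ N x z.1) +
        fderiv ℝ N x z.1 := by abel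
    rw [e]
    refine (norm_add_le _ _).trans ?_
    have := ((fderiv ℝ N x).le_opNorm z.1).trans
      (mul_le_mul_of_nonneg_right ((hB x hx).trans (le_max_left B 0)) (norm_nonneg z.1))
    linarith
  obtain ⟨τ', hτ', h2⟩ := Metric.eventually_nhds_iff.1 h1
  refine ⟨min (δ / 2) (min τ τ'), max B 0 + 1, thickening (δ / 2) K, by positivity,
    by linarith [le_max_right B 0], hV, hKV, ?_, ?_, ?_⟩
  · intro x hx z hz
    exact hVU x hx z (hz.trans_le (min_le_left _ _))
  · intro x hx z hz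
    have hz' : ‖z‖ < τ' := hz.trans_le ((min_le_right _ _).trans (min_le_right _ _))
    have := h2 (y := z) (by rwa [dist_zero_right]) x hx
    rwa [hR.fix x hx] at this
  · intro x hx y hy z hz
    have hz' : ‖z - 0‖ < τ := by
      rw [sub_zero]
      exact hz.trans_le ((min_le_right _ _).trans (min_le_left _ _))
    have := (hL z hz').2 x hx y hy
    simp only [add_zero, hR.fix x hx, hR.fix y hy] at this
    have e : N (x + z) - N (y + z) - (x - y) = N (x + z) - x - (N (y + z) - y) := by abel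
    rw [e]
    linarith

end Pool.Agent.L7h73.AA
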