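import Pool.Agent.L7h32.AA.Stm

set_option autoImplicit false

/-!
# Project AA: smooth families are continuous in the Lipschitz norm (`S_CTS`)
-/

open Set Filter Topology Metric MeasureTheory
open scoped ContDiff

namespace Pool.Agent.L7h73.AA

open Pool.Agent.L7h32.AA

theorem s_CTS : S_CTS := by
  intro E F _ _ _ _ _ _ K V J M hK hV hKV hJ hM s hs δ hδ
  have hat : ∀ x ∈ K, ContDiffAt ℝ ∞ M (s, x) := fun x hx =>
    hM.contDiffAt ((hJ.prod hV).mem_nhds ⟨hs, hKV hx⟩)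
  have hcont : ∀ x ∈ K, ContinuousAt M (s, x) := fun x hx => (hat x hx).continuousAt
  have h1 : ∀ᶠ s' in 𝓝 s, ∀ x ∈ K, ‖M (s', x) - M (s, x)‖ ≤ δ := by
    refine hK.eventually_forall_of_forall_eventually (P := fun s' x => ‖M (s', x) - M (s, x)‖ ≤ δ)
      fun x hx => ?_
    have c1 : ContinuousAt (fun z : ℝ × E => ‖M (z.1, z.2) - M (s, z.2)‖) (s, x) := by
      have a1 : ContinuousAt (fun z : ℝ × E => M (z.1, z.2)) (s, x) := hcont x hx
      have a2 : ContinuousAt (fun z : ℝ × E => M (s, z.2)) (s, x) := by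
        refine ContinuousAt.comp (g := M) (f := fun z : ℝ × E => (s, z.2)) (hcont x hx) ?_
        exact (by fun_prop)
      exact (a1.sub a2).norm
    have c2 : (fun z : ℝ × E => ‖M (z.1, z.2) - M (s, z.2)‖) (s, x) < δ := by
      simpa using hδ
    exact (c1.eventually_lt continuousAt_const c2).mono fun z hz => hz.le
  have h2 : ∀ᶠ s' in 𝓝 s, ∀ q ∈ K ×ˢ K,
      ‖(M (s', q.1) - M (s, q.1)) - (M (s', q.2) - M (s, q.2))‖ ≤ δ * ‖q.1 - q.2‖ := by
    refine (hK.prod hK).eventually_forall_of_forall_eventually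
      (P := fun s' q => ‖(M (s', q.1) - M (s, q.1)) - (M (s', q.2) - M (s, q.2))‖ ≤
        δ * ‖q.1 - q.2‖) ?_
    rintro ⟨x, y⟩ ⟨hx, hy⟩
    by_cases hxy : x = y
    · subst hxy
      have hd := ((hat x hx).hasStrictFDerivAt (by simp)).isLittleO.def (half_pos hδ)
      set D := fderiv ℝ M (s, x)
      have t1 : Tendsto (fun z : ℝ × (E × E) => (((z.1, z.2.1), (z.1, z.2.2)) :
          (ℝ × E) × (ℝ × E))) (𝓝 (s, (x, x))) (𝓝 ((s, x), (s, x))) := by
        have : Continuous (fun z : ℝ × (E × E) => (((z.1, z.2.1), (z.1, z.2.2)) :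
          (ℝ × E) × (ℝ × E))) := by fun_prop
        exact this.tendsto' _ _ rfl
      have t2 : Tendsto (fun z : ℝ × (E × E) => (((s, z.2.1), (s, z.2.2)) :
          (ℝ × E) × (ℝ × E))) (𝓝 (s, (x, x))) (𝓝 ((s, x), (s, x))) := by
        have : Continuous (fun z : ℝ × (E × E) => (((s, z.2.1), (s, z.2.2)) :
          (ℝ × E) × (ℝ × E))) := by fun_prop
        exact this.tendsto' _ _ rfl
      filter_upwards [t1.eventually hd, t2.eventually hd] with z hz1 hz2
      have e1 : ((z.1, z.2.1) - (z.1, z.2.2) : ℝ × E) = (0, z.2.1 - z.2.2) := by simp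
      have e2 : ((s, z.2.1) - (s, z.2.2) : ℝ × E) = (0, z.2.1 - z.2.2) := by simp
      have e3 : ‖((0, z.2.1 - z.2.2) : ℝ × E)‖ = ‖z.2.1 - z.2.2‖ := by
        simp [Prod.norm_def]
      simp only [e1, e3] at hz1
      simp only [e2, e3] at hz2
      have e4 : (M (z.1, z.2.1) - M (s, z.2.1)) - (M (z.1, z.2.2) - M (s, z.2.2)) =
          (M (z.1, z.2.1) - M (z.1, z.2.2) - D (0, z.2.1 - z.2.2)) -
          (M (s, z.2.1) - M (s, z.2.2) - D (0, z.2.1 - z.2.2)) := by abel
      rw [e4]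
      refine (norm_sub_le _ _).trans ?_
      linarith
    · have hpos : 0 < ‖x - y‖ := norm_pos_iff.2 (sub_ne_zero.2 hxy)
      have a1 : ContinuousAt (fun z : ℝ × (E × E) => M (z.1, z.2.1)) (s, (x, y)) :=
        ContinuousAt.comp (g := M) (f := fun z : ℝ × (E × E) => (z.1, z.2.1)) (hcont x hx)
          (by fun_prop)
      have a2 : ContinuousAt (fun z : ℝ × (E × E) => M (s, z.2.1)) (s, (x, y)) :=
        ContinuousAt.comp (g := M) (f := fun z : ℝ × (E × E) => (s, z.2.1)) (hcont x hx)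
          (by fun_prop)
      have a3 : ContinuousAt (fun z : ℝ × (E × E) => M (z.1, z.2.2)) (s, (x, y)) :=
        ContinuousAt.comp (g := M) (f := fun z : ℝ × (E × E) => (z.1, z.2.2)) (hcont y hy)
          (by fun_prop)
      have a4 : ContinuousAt (fun z : ℝ × (E × E) => M (s, z.2.2)) (s, (x, y)) :=
        ContinuousAt.comp (g := M) (f := fun z : ℝ × (E × E) => (s, z.2.2)) (hcont y hy)
          (by fun_prop)
      have a5 : ContinuousAt (fun z : ℝ × (E × E) => δ * ‖z.2.1 - z.2.2‖) (s, (x, y)) := by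
        fun_prop
      have c2 : (fun z : ℝ × (E × E) =>
          ‖(M (z.1, z.2.1) - M (s, z.2.1)) - (M (z.1, z.2.2) - M (s, z.2.2))‖) (s, (x, y)) <
          (fun z : ℝ × (E × E) => δ * ‖z.2.1 - z.2.2‖) (s, (x, y)) := by
        simpa using mul_pos hδ hpos
      exact (((a1.sub a2).sub (a3.sub a4)).norm.eventually_lt a5 c2).mono fun z hz => hz.le
  obtain ⟨τ, hτ, h⟩ := Metric.eventually_nhds_iff.1 (h1.and h2)
  refine ⟨τ, hτ, fun s' _ hs' => ?_⟩
  obtain ⟨b1, b2⟩ := h (y := s') (by rwa [Real.dist_eq])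
  exact ⟨b1, fun x hx y hy => b2 (x, y) ⟨hx, hy⟩⟩

end Pool.Agent.L7h73.AA
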