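import Pool.Agent.L7h32.AA.Stm
import Pool.Agent.L7h34.AA.Low

set_option autoImplicit false

/-!
# Project AA: immersions of the 3-sphere (`S_SPH`, from `S_LOW`)
-/

open Set Filter Topology Metric MeasureTheory Module
open scoped ContDiff Manifold RealInnerProductSpace EuclideanSpace

namespace Pool.Agent.L7h73.AA

open Pool.Agent.L7h32.AA

/-- Euclidean space of dimension four -/
abbrev E4 := EuclideanSpace ℝ (Fin (3 + 1))

theorem ret_sph : Ret (sphere (0 : E4) 1) {0}ᶜ (fun x => ‖x‖⁻¹ • x) where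
  cpt := isCompact_sphere _ _
  opn := isOpen_compl_singleton
  sub := by
    intro x hx h
    rw [mem_singleton_iff] at h
    subst h
    simp at hx
  smooth := by
    intro x hx
    have hx' : x ≠ 0 := hx
    exact (((contDiffAt_id.norm ℝ hx').inv (norm_ne_zero_iff.2 hx')).smul
      contDiffAt_id).contDiffWithinAt
  maps := by
    intro x hx
    have hx' : x ≠ 0 := hx
    rw [mem_sphere_zero_iff_norm, norm_smul, norm_inv, norm_norm,
      inv_mul_cancel₀ (norm_ne_zero_iff.2 hx')]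
  fix := by
    intro x hx
    rw [mem_sphere_zero_iff_norm] at hx
    simp [hx]

theorem smooth_sph (f : sphere (0 : E4) 1 → EuclideanSpace ℝ (Fin 4))
    (hf : ContMDiff (𝓡 3) (𝓡 4) ∞ f) (F : E4 → EuclideanSpace ℝ (Fin 4))
    (hF : ∀ x : sphere (0 : E4) 1, F x.1 = f x) :
    ContDiffOn ℝ ∞ (fun x => F (‖x‖⁻¹ • x)) {0}ᶜ := by
  let U : TopologicalSpace.Opens E4 := ⟨{0}ᶜ, isOpen_compl_singleton⟩
  have h0 : ∀ x : U, (‖x.1‖⁻¹ • x.1) ∈ sphere (0 : E4) 1 := fun x => ret_sph.maps x.1 x.2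
  have h1 : ContMDiff 𝓘(ℝ, E4) 𝓘(ℝ, E4) ∞ (fun x : U => ‖x.1‖⁻¹ • x.1) := by
    intro x
    refine (contMDiffAt_subtype_iff (f := fun y : E4 => ‖y‖⁻¹ • y)).2 ?_
    exact (ret_sph.smooth.contDiffAt (isOpen_compl_singleton.mem_nhds x.2)).contMDiffAt
  have h2 := hf.comp (h1.codRestrict_sphere (n := 3) h0)
  intro x hx
  have h3 : ContMDiffAt 𝓘(ℝ, E4) (𝓡 4) ∞ (fun y : U => F (‖y.1‖⁻¹ • y.1)) ⟨x, hx⟩ := by
    have : (fun y : U => F (‖y.1‖⁻¹ • y.1)) = f ∘ Set.codRestrict _ _ h0 := by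
      funext y
      exact hF ⟨_, h0 y⟩
    rw [this]
    exact h2 _
  have h4 := (contMDiffAt_subtype_iff (f := fun y : E4 => F (‖y‖⁻¹ • y))).1 h3
  exact h4.contDiffAt.contDiffWithinAt

theorem low_sph (f : sphere (0 : E4) 1 → EuclideanSpace ℝ (Fin 4))
    (hf : ContMDiff (𝓡 3) (𝓡 4) ∞ f)
    (him : ∀ x, Function.Injective (mfderiv (𝓡 3) (𝓡 4) f x))
    (F : E4 → EuclideanSpace ℝ (Fin 4))
    (hF : ∀ x : sphere (0 : E4) 1, F x.1 = f x) (x : E4) (hx : x ∈ sphere (0 : E4) 1) :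
    ∃ c : ℝ, 0 < c ∧ ∃ ρ : ℝ, 0 < ρ ∧ ∀ y ∈ sphere (0 : E4) 1, ‖y - x‖ < ρ →
      c * ‖x - y‖ ≤ ‖F x - F y‖ := by
  set G : E4 → EuclideanSpace ℝ (Fin 4) := fun x => F (‖x‖⁻¹ • x) with hGdef
  have hGs : ContDiffOn ℝ ∞ G {0}ᶜ := smooth_sph f hf F hF
  have hx0 : x ≠ 0 := ret_sph.sub hx
  have hx1 : ‖x‖ = 1 := by rwa [mem_sphere_zero_iff_norm] at hx
  have hGx : ContDiffAt ℝ ∞ G x := hGs.contDiffAt (isOpen_compl_singleton.mem_nhds hx0)
  have hGd : DifferentiableAt ℝ G x := hGx.differentiableAt (by simp)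
  set D := fderiv ℝ G x with hD
  have hd : HasFDerivAt G D x := hGd.hasFDerivAt
  have hGF : ∀ y ∈ sphere (0 : E4) 1, G y = F y := fun y hy => by
    simp only [hGdef]
    rw [ret_sph.fix y hy]
  have hfe : f = G ∘ (Subtype.val : sphere (0 : E4) 1 → E4) := by
    funext p
    change f p = G p.1
    rw [hGF p.1 p.2, hF p]
  -- the derivative of `f`
  have hch : ∀ w, mfderiv (𝓡 3) (𝓡 4) f ⟨x, hx⟩ w =
      D (mfderiv (𝓡 3) 𝓘(ℝ, E4) (Subtype.val : sphere (0 : E4) 1 → E4) ⟨x, hx⟩ w) := by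
    intro w
    have h1 : MDifferentiableAt 𝓘(ℝ, E4) (𝓡 4) G x := hGd.mdifferentiableAt
    have h2 : MDifferentiableAt (𝓡 3) 𝓘(ℝ, E4) (Subtype.val : sphere (0 : E4) 1 → E4) ⟨x, hx⟩ :=
      (contMDiff_coe_sphere (m := 1) ⟨x, hx⟩).mdifferentiableAt one_ne_zero
    have h3 := mfderiv_comp (I := 𝓡 3) (I' := 𝓘(ℝ, E4)) (I'' := 𝓡 4)
      (x := (⟨x, hx⟩ : sphere (0 : E4) 1)) (g := G) (f := Subtype.val) h1 h2
    have h4 : mfderiv 𝓘(ℝ, E4) (𝓡 4) G x = D := mfderiv_eq_fderiv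
    rw [hfe, h3]
    exact congrArg (fun T : E4 →L[ℝ] EuclideanSpace ℝ (Fin 4) =>
      T (mfderiv (𝓡 3) 𝓘(ℝ, E4) (Subtype.val : sphere (0 : E4) 1 → E4) ⟨x, hx⟩ w)) h4
  have hker : ∀ v ∈ (Submodule.span ℝ {x})ᗮ, D v = 0 → v = 0 := by
    intro v hv hDv
    have hr := range_mfderiv_coe_sphere (n := 3) (⟨x, hx⟩ : sphere (0 : E4) 1)
    rw [← hr] at hv
    obtain ⟨w, hw⟩ := hv
    have hw' : mfderiv (𝓡 3) 𝓘(ℝ, E4) (Subtype.val : sphere (0 : E4) 1 → E4) ⟨x, hx⟩ w = v := hw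
    have h5 : mfderiv (𝓡 3) (𝓡 4) f ⟨x, hx⟩ w = 0 := by
      rw [hch w, hw']
      exact hDv
    have h6 : w = 0 := him ⟨x, hx⟩ (h5.trans (map_zero _).symm)
    rw [← hw', h6]
    exact map_zero _
  -- the lower bound
  set S : Submodule ℝ E4 := (Submodule.span ℝ {x})ᗮ with hS
  have hker' : ((D : E4 →ₗ[ℝ] EuclideanSpace ℝ (Fin 4)).domRestrict S).ker = ⊥ := by
    rw [LinearMap.ker_eq_bot']
    intro v hv
    exact Subtype.ext (hker v.1 v.2 hv)
  obtain ⟨K0, hK0, hK⟩ := LinearMap.exists_antilipschitzWith _ hker'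
  have hlow : ∀ v ∈ S, ‖v‖ ≤ K0 * ‖D v‖ := by
    intro v hv
    have h := hK.le_mul_dist (⟨v, hv⟩ : S) 0
    rw [dist_zero_right, map_zero, dist_zero_right] at h
    exact h
  have hDx : D x = 0 := by
    have h1 : HasDerivAt (fun s : ℝ => G (s • x)) (D x) 1 := by
      have h2 : HasDerivAt (fun s : ℝ => s • x) x 1 := by
        simpa using (hasDerivAt_id (1 : ℝ)).smul_const x
      have h3 : HasFDerivAt G D ((fun s : ℝ => s • x) 1) := by
        simpa only [one_smul] using hd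
      exact HasFDerivAt.comp_hasDerivAt (f := fun s : ℝ => s • x) (l := G) 1 h3 h2
    have h4 : HasDerivAt (fun s : ℝ => G (s • x)) 0 1 := by
      refine (hasDerivAt_const (1 : ℝ) (G x)).congr_of_eventuallyEq ?_
      filter_upwards [lt_mem_nhds (zero_lt_one (α := ℝ))] with s hs
      simp only [hGdef]
      congr 1
      rw [norm_smul, Real.norm_of_nonneg hs.le, smul_smul, mul_inv, mul_comm s⁻¹, mul_assoc,
        inv_mul_cancel₀ hs.ne', mul_one]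
    exact h1.unique h4
  have hK0' : (0 : ℝ) < K0 := hK0
  have ho := hd.isLittleO.def (c := 1 / (4 * K0)) (by positivity)
  obtain ⟨ρ, hρ, hρ2⟩ := Metric.eventually_nhds_iff.1 ho
  refine ⟨1 / (4 * K0), by positivity, min ρ 1, by positivity, fun y hy hyx => ?_⟩
  have hy1 : ‖y‖ = 1 := by rwa [mem_sphere_zero_iff_norm] at hy
  have hr1 : ‖y - x‖ < ρ := hyx.trans_le (min_le_left _ _)
  have hr2 : ‖y - x‖ < 1 := hyx.trans_le (min_le_right _ _)
  have hb := hρ2 (y := y) (by rwa [dist_eq_norm])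
  rw [← hGF x hx, ← hGF y hy]
  set a : ℝ := ⟪x, y - x⟫ with ha
  have ha2 : a = -(‖y - x‖ ^ 2 / 2) := by
    have h1 : ‖y - x‖ ^ 2 = ‖y‖ ^ 2 - 2 * ⟪y, x⟫ + ‖x‖ ^ 2 := norm_sub_sq_real y x
    have h2 : a = ⟪x, y⟫ - ⟪x, x⟫ := inner_sub_right x y x
    rw [real_inner_self_eq_norm_sq, real_inner_comm] at h2
    rw [hy1, hx1] at h1
    rw [hx1] at h2
    linarith
  have hvS : (y - x) - a • x ∈ S := by
    rw [hS, Submodule.mem_orthogonal_singleton_iff_inner_right, inner_sub_right, inner_smul_right,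
      real_inner_self_eq_norm_sq, hx1]
    simp [ha]
  have hDv : D ((y - x) - a • x) = D (y - x) := by
    rw [map_sub, map_smul, hDx, smul_zero, sub_zero]
  have h1 := hlow _ hvS
  rw [hDv] at h1
  have h2 : ‖y - x‖ - |a| ≤ ‖(y - x) - a • x‖ := by
    have := norm_sub_norm_le (y - x) (a • x)
    rwa [norm_smul, hx1, mul_one, Real.norm_eq_abs] at this
  have h3 : |a| = ‖y - x‖ ^ 2 / 2 := by
    rw [ha2, abs_neg, abs_of_nonneg (by positivity)]
  have h4 : ‖y - x‖ ^ 2 / 2 ≤ ‖y - x‖ / 2 := by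
    have := mul_le_of_le_one_right (norm_nonneg (y - x)) hr2.le
    nlinarith [norm_nonneg (y - x)]
  have h5 : ‖y - x‖ / 2 ≤ K0 * ‖D (y - x)‖ := by linarith
  have h6 : ‖D (y - x)‖ ≤ ‖G y - G x‖ + 1 / (4 * K0) * ‖y - x‖ := by
    have e : D (y - x) = (G y - G x) - (G y - G x - D (y - x)) := by abel
    calc ‖D (y - x)‖ = ‖(G y - G x) - (G y - G x - D (y - x))‖ := by rw [← e]
      _ ≤ ‖G y - G x‖ + ‖G y - G x - D (y - x)‖ := norm_sub_le _ _
      _ ≤ _ := by linarith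
  have h7 : ‖y - x‖ / 2 ≤ K0 * ‖G y - G x‖ + ‖y - x‖ / 4 := by
    refine h5.trans ((mul_le_mul_of_nonneg_left h6 hK0'.le).trans (le_of_eq ?_))
    field_simp
  rw [norm_sub_rev x y, norm_sub_rev (G x) (G y), div_mul_eq_mul_div, one_mul,
    div_le_iff₀ (by positivity)]
  linarith

/-- `S_SPH` from `S_LOW` -/
theorem sph_of_low (hL : S_LOW) : S_SPH := by
  intro f hf hinj him F hF
  refine ⟨ret_sph, hL _ _ _ _ _ F ret_sph (smooth_sph f hf F hF) ?_ ?_⟩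
  · intro x hx y hy h
    have h1 : f ⟨x, hx⟩ = f ⟨y, hy⟩ := by
      rw [← hF ⟨x, hx⟩, ← hF ⟨y, hy⟩]
      exact h
    exact congrArg Subtype.val (hinj h1)
  · intro x hx
    exact low_sph f hf him F hF x hx

theorem s_SPH : S_SPH := sph_of_low Pool.Agent.L7h34.AA.s_LOW

end Pool.Agent.L7h73.AA
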